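import Pool.Agent.Q8.StabB.Main

/-!
# Stable boundedness forces definite root subspaces (every order `ℓ ≥ 2`)

For a nonstandard involution `φ` of the real quaternions and a system
`∑_{k ≤ ℓ} A_k x^{(k)} = 0` with `ℓ ≥ 2` obeying hypothesis (B) which is stably bounded, every root
subspace of the companion matrix `C` is `(G, φ)`-definite.

Idea: otherwise there is an isotropic right eigenvector with eigenvalue `α = μ β`, and an explicit
small perturbation of `A_0` and `A_1` turns `α + e` (`e > 0` real, small) into an eigenvalue, which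
gives an unbounded solution.
-/

namespace Pool.Agent.Results.MP_87a692_al.StableDefinite

open Quaternion Q8.StabB

/-- `α` is a (right) eigenvalue of the quaternion matrix `C`. -/
def IsEigenvalue {ι : Type*} [Fintype ι] (C : Matrix ι ι ℍ[ℝ]) (α : ℍ[ℝ]) : Prop :=
  ∃ x : ι → ℍ[ℝ], x ≠ 0 ∧ C.mulVec x = fun p => x p * α

/-- A set `M` of vectors is `(G, φ)`-definite: `x_φ G x` vanishes for no nonzero `x ∈ M`. -/
def IsDefinite {ι : Type*} [Fintype ι] (φ : ℍ[ℝ] →ₗ[ℝ] ℍ[ℝ]) (G : Matrix ι ι ℍ[ℝ])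
    (M : Set (ι → ℍ[ℝ])) : Prop :=
  ∀ z ∈ M, z ≠ 0 → form φ G z z ≠ 0

/-- A stably bounded system of order `ℓ ≥ 2` obeying (B) has only `(G, φ)`-definite root
subspaces. -/
theorem result (φ : ℍ[ℝ] →ₗ[ℝ] ℍ[ℝ]) (hφ : IsNonstandard φ) (ℓ n : ℕ) (hℓ : 2 ≤ ℓ)
    (A : ℕ → Matrix (Fin n) (Fin n) ℍ[ℝ]) (hB : HypB φ ℓ n A) (hs : IsStablyBounded φ ℓ n A)
    (α : ℍ[ℝ]) (_hα : IsEigenvalue (companion ℓ n A) α) :
    IsDefinite φ (gram ℓ n A) (rootSubspace (companion ℓ n A) (ℓ * n) α) :=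
  fun z hz hz0 => main hφ hℓ hB hs (ℓ * n) α z hz hz0

end Pool.Agent.Results.MP_87a692_al.StableDefinite
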